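import Pool.Agent.Y157.PS.Stm

/-!
# Subextensions of pro-`ℓ` extensions which are closed under `ℓ`-th roots (PS-PROL)
-/

set_option autoImplicit false

namespace Pool.Agent.Y705.PS

open Pool.Agent.Y157.PS

/-- a nontrivial finite `ℓ`-group has a surjection to the group of the `ℓ`-th roots of unity -/
theorem exists_char {H R : Type} [Group H] [Field R] (ℓ : ℕ) [Fact ℓ.Prime] {m : ℕ}
    (hH : Nat.card H = ℓ ^ (m + 1)) {ζ : R} (hζ : IsPrimitiveRoot ζ ℓ) :
    ∃ χ : H →* rootsOfUnity ℓ R, Function.Surjective χ := by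
  have hp : ℓ.Prime := Fact.out
  have hfin : Finite H := Nat.finite_of_card_ne_zero (by rw [hH]; exact pow_ne_zero _ hp.ne_zero)
  obtain ⟨K, hK⟩ := Sylow.exists_subgroup_card_pow_prime (G := H) ℓ (n := m)
    (by rw [hH]; exact pow_dvd_pow _ (Nat.le_succ m))
  have hidx : K.index = ℓ := by
    have h1 := K.card_mul_index
    rw [hK, hH, pow_succ] at h1
    exact Nat.eq_of_mul_eq_mul_left (pow_pos hp.pos m) h1
  have hn : K.Normal := by
    refine Subgroup.normal_of_index_eq_minFac_card ?_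
    rw [hidx, hH, Nat.pow_minFac (Nat.succ_ne_zero m), hp.minFac_eq]
  have h1 : Nat.card (H ⧸ K) = ℓ := by rw [← hidx]; rfl
  have h2 : Nat.card (rootsOfUnity ℓ R) = ℓ := hζ.card_rootsOfUnity
  let e := mulEquivOfPrimeCardEq (p := ℓ) h1 h2
  refine ⟨e.toMonoidHom.comp (QuotientGroup.mk' K), ?_⟩
  exact e.surjective.comp (QuotientGroup.mk'_surjective K)

theorem finite_level {R N : Type} [Field R] [Field N] [Algebra R N] [FiniteDimensional R N]
    [IsGalois R N] (ℓ : ℕ) [Fact ℓ.Prime] {ζ : R} (hζ : IsPrimitiveRoot ζ ℓ) {m : ℕ}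
    (hm : Module.finrank R N = ℓ ^ m) (S : IntermediateField R N)
    (hS : ∀ h : N, h ^ ℓ ∈ S → h ∈ S) : S = ⊤ := by
  have hp : ℓ.Prime := Fact.out
  obtain ⟨c, hc, hc2⟩ : ∃ c ≤ m, Module.finrank S N = ℓ ^ c := by
    rw [← Nat.dvd_prime_pow hp, ← hm, ← Module.finrank_mul_finrank R S N]
    exact dvd_mul_left _ _
  rcases Nat.eq_zero_or_pos c with h0 | h0
  · rw [h0, pow_zero] at hc2
    exact IntermediateField.finrank_eq_one_iff_eq_top.mp hc2
  obtain ⟨c, rfl⟩ : ∃ d, c = d + 1 := ⟨c - 1, by omega⟩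
  exfalso
  have hcard : Nat.card (N ≃ₐ[S] N) = ℓ ^ (c + 1) := by
    rw [IsGalois.card_aut_eq_finrank, hc2]
  have hζ' : IsPrimitiveRoot (algebraMap R S ζ) ℓ := hζ.map_of_injective (algebraMap R S).injective
  obtain ⟨χ, hχ⟩ := exists_char ℓ hcard hζ'
  let f : (N ≃ₐ[S] N) → Nˣ := fun σ => Units.map (algebraMap S N).toMonoidHom (χ σ : Sˣ)
  have hf : groupCohomology.IsMulCocycle₁ f := by
    intro g h
    ext
    have : g • (f h) = f h := by
      ext
      exact g.commutes _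
    rw [this]
    simp only [f, map_mul, Subgroup.coe_mul, Units.val_mul, mul_comm]
  obtain ⟨β, hβ⟩ := groupCohomology.isMulCoboundary₁_of_isMulCocycle₁_of_aut_to_units f hf
  have h1 : ∀ σ : N ≃ₐ[S] N, σ (β : N) = (f σ : N) * β := by
    intro σ
    have := hβ σ
    rw [div_eq_iff_eq_mul] at this
    have h2 := congrArg (fun u : Nˣ => (u : N)) this
    exact h2
  have h2 : (β : N) ^ ℓ ∈ S := by
    have h3 : (β : N) ^ ℓ ∈ (⊥ : IntermediateField S N) := by
      rw [IsGalois.mem_bot_iff_fixed]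
      intro σ
      rw [map_pow, h1, mul_pow]
      have h4 : (f σ : N) ^ ℓ = 1 := by
        have h5 : ((χ σ : Sˣ)) ^ ℓ = 1 := (χ σ).2
        have h6 : (f σ) ^ ℓ = 1 := by
          simp only [f]
          rw [← map_pow, h5, map_one]
        have := congrArg (fun u : Nˣ => (u : N)) h6
        simpa using this
      rw [h4, one_mul]
    obtain ⟨s, hs⟩ := IntermediateField.mem_bot.mp h3
    rw [← hs]
    exact s.2
  have h3 := hS _ h2
  obtain ⟨σ, hσ⟩ := hχ ⟨hζ'.isUnit hp.ne_zero |>.unit, by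
    rw [mem_rootsOfUnity]
    ext
    simp [hζ'.pow_eq_one]⟩
  have h4 : σ (β : N) = β := σ.commutes ⟨_, h3⟩
  have h5 : (f σ : N) = 1 := by
    have := h1 σ
    rw [h4] at this
    exact (mul_eq_right₀ β.ne_zero).mp this.symm
  have h6 : algebraMap S N (algebraMap R S ζ) = 1 := by
    rw [← h5]
    simp only [f, hσ]
    rfl
  have h7 : algebraMap R S ζ = 1 := (algebraMap S N).injective (by rw [h6, map_one])
  rw [h7] at hζ'
  have h8 := hζ'.unique IsPrimitiveRoot.one
  exact hp.one_lt.ne' h8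

theorem prol : S_PROL := by
  intro ℓ _ R M _ _ _ _ ⟨ζ, hζ⟩ hgal hpow S hS
  rw [eq_top_iff]
  intro z _
  obtain ⟨N, hz, hN⟩ := hpow z
  have := hN.fin
  have := hN.gal
  obtain ⟨m, hm⟩ := hN.card
  have h1 : S.comap N.val = ⊤ := by
    refine finite_level ℓ hζ hm _ fun h hh => ?_
    have h2 : N.val (h ^ ℓ) ∈ S := hh
    rw [map_pow] at h2
    exact hS _ h2
  have h2 : (⟨z, hz⟩ : N) ∈ S.comap N.val := by rw [h1]; trivial
  exact h2

end Pool.Agent.Y705.PS
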