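import Pool.Agent.Y157.PS.Stm

/-!
# `φ - 1` is surjective (PS-SURJ)
-/

set_option autoImplicit false

namespace Pool.Agent.Y705.PS

open Pool.Agent.Y157.PS

section group

variable {Q : Type} [CommGroup Q] (Φ : Q →* Q) (ℓ : ℕ)

/-- the endomorphism `Φ - 1` in multiplicative form -/
def dl : Q →* Q := Φ / MonoidHom.id Q

theorem dl_apply (a : Q) : dl Φ a = Φ a / a := rfl

/-- the torsion subgroup of exponent `ℓ ^ n` -/
def tor (n : ℕ) : Subgroup Q := (powMonoidHom (ℓ ^ n)).ker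

variable {ℓ}

theorem mem_tor {n : ℕ} {a : Q} : a ∈ tor (Q := Q) ℓ n ↔ a ^ (ℓ ^ n) = 1 := Iff.rfl

theorem tor_finite (h1 : {a : Q | a ^ ℓ = 1}.Finite) (n : ℕ) :
    {a : Q | a ^ (ℓ ^ n) = 1}.Finite := by
  induction n with
  | zero => 
    refine (Set.finite_singleton (1 : Q)).subset fun a ha => ?_
    simpa using ha
  | succ n ih =>
    -- the fibres of `a ↦ a ^ ℓ` are finite
    have h2 : {a : Q | a ^ (ℓ ^ (n + 1)) = 1} = (fun a : Q => a ^ ℓ) ⁻¹' {a : Q | a ^ (ℓ ^ n) = 1} := by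
      ext a
      simp only [Set.mem_ofPred_eq, Set.mem_preimage, ← pow_mul, pow_succ']
    rw [h2]
    refine Set.Finite.preimage' ih fun b _ => ?_
    by_cases hb : ∃ a₀ : Q, a₀ ^ ℓ = b
    · obtain ⟨a₀, ha₀⟩ := hb
      refine (h1.image fun t => a₀ * t).subset fun a ha => ?_
      rw [Set.mem_preimage, Set.mem_singleton_iff] at ha
      refine ⟨a₀⁻¹ * a, ?_, by simp⟩
      rw [Set.mem_ofPred_eq, mul_pow, ha, inv_pow, ha₀, inv_mul_cancel]
    · refine Set.Finite.subset Set.finite_empty fun a ha => ?_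
      exact hb ⟨a, ha⟩

/-- `Φ - 1` is surjective on an `ℓ`-divisible `ℓ`-primary group of finite corank if its kernel is
finite -/
theorem surj_group [hp : Fact ℓ.Prime]
    (hd : ∀ (a : Q) (n : ℕ), a ^ (ℓ ^ n) = 1 → ∃ b : Q, b ^ ℓ = a)
    (h1 : {a : Q | a ^ ℓ = 1}.Finite)
    (h2 : {a : Q | (∃ n : ℕ, a ^ (ℓ ^ n) = 1) ∧ Φ a = a}.Finite)
    (a : Q) (n : ℕ) (ha : a ^ (ℓ ^ n) = 1) :
    ∃ (b : Q) (m : ℕ), b ^ (ℓ ^ m) = 1 ∧ a = Φ b / b := by
  have hℓ : ℓ.Prime := hp.out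
  -- the kernel
  let K : Subgroup Q :=
    { carrier := {a : Q | (∃ n : ℕ, a ^ (ℓ ^ n) = 1) ∧ Φ a = a}
      one_mem' := ⟨⟨0, by simp⟩, map_one Φ⟩
      mul_mem' := by
        rintro a b ⟨⟨n, hn⟩, ha⟩ ⟨⟨m, hm⟩, hb⟩
        refine ⟨⟨n + m, ?_⟩, by rw [map_mul, ha, hb]⟩
        rw [mul_pow, pow_add, pow_mul, hn, one_pow, one_mul, mul_comm, pow_mul, hm, one_pow]
      inv_mem' := by
        rintro a ⟨⟨n, hn⟩, ha⟩
        exact ⟨⟨n, by rw [inv_pow, hn, inv_one]⟩, by rw [map_inv, ha]⟩ }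
  have hKfin : Finite K := h2.to_subtype
  have hKp : IsPGroup ℓ K := by
    rintro ⟨a, ⟨n, hn⟩, _⟩
    exact ⟨n, Subtype.ext hn⟩
  obtain ⟨c, hc⟩ := IsPGroup.iff_card.mp hKp
  -- divisibility
  have hdiv : ∀ (c : ℕ) (a : Q) (n : ℕ), a ^ (ℓ ^ n) = 1 →
      ∃ b : Q, b ^ (ℓ ^ c) = a ∧ b ^ (ℓ ^ (n + c)) = 1 := by
    intro c
    induction c with
    | zero => intro a n ha; exact ⟨a, by simp, ha⟩
    | succ c ih =>
      intro a n ha
      obtain ⟨b, hb, hb2⟩ := ih a n ha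
      obtain ⟨b', hb'⟩ := hd b _ hb2
      refine ⟨b', by rw [pow_succ', pow_mul, hb', hb], ?_⟩
      rw [← add_assoc, pow_succ', pow_mul, hb', hb2]
  obtain ⟨g, hg, hg2⟩ := hdiv c a n ha
  set m := n + c with hm
  -- the finite group
  have hTfin : Finite (tor (Q := Q) ℓ m) := (tor_finite h1 m).to_subtype
  have hst : ∀ a ∈ tor (Q := Q) ℓ m, dl Φ a ∈ tor (Q := Q) ℓ m := by
    intro a ha
    rw [mem_tor] at ha ⊢
    rw [← map_pow, ha, map_one]
  let δ : tor (Q := Q) ℓ m →* tor (Q := Q) ℓ m :=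
    ((dl Φ).comp (tor (Q := Q) ℓ m).subtype).codRestrict _ fun a => hst _ a.2
  have hidx : δ.range.index = Nat.card δ.ker := by
    have e1 := δ.ker.card_mul_index
    rw [Subgroup.index_ker] at e1
    have e2 := δ.range.card_mul_index
    have e3 : 0 < Nat.card δ.range := Nat.card_pos
    refine Nat.eq_of_mul_eq_mul_left e3 ?_
    rw [e2, ← e1, mul_comm]
  have hdvd : Nat.card δ.ker ∣ ℓ ^ c := by
    rw [← hc]
    let i : δ.ker →* K :=
      ((tor (Q := Q) ℓ m).subtype.comp δ.ker.subtype).codRestrict K fun z => by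
        refine ⟨⟨m, z.1.2⟩, ?_⟩
        have h3 : δ z.1 = 1 := z.2
        have h4 : Φ (z.1 : Q) / (z.1 : Q) = 1 := congrArg Subtype.val h3
        exact div_eq_one.mp h4
    refine Subgroup.card_dvd_of_injective i ?_
    intro z z' hzz
    apply Subtype.ext
    apply Subtype.ext
    exact congrArg (fun k : K => (k : Q)) hzz
  have hmem : (⟨g, hg2⟩ : tor (Q := Q) ℓ m) ^ (ℓ ^ c) ∈ δ.range := by
    obtain ⟨d, hd⟩ := hdvd
    rw [hd, pow_mul, ← hidx]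
    refine Subgroup.pow_mem _ ?_ d
    exact Subgroup.pow_index_mem _ _
  obtain ⟨b, hb⟩ := hmem
  refine ⟨b, m, b.2, ?_⟩
  have h3 := congrArg (fun k : tor (Q := Q) ℓ m => (k : Q)) hb
  rw [← hg]
  exact h3.symm

end group

section field

variable {M : Type} [Field M] (N : Subfield M)

/-- the units of the subfield `N` -/
def NU : Subgroup Mˣ where
  carrier := {u | (u : M) ∈ N}
  one_mem' := N.one_mem
  mul_mem' := fun {a b} ha hb => by
    rw [Set.mem_ofPred_eq, Units.val_mul]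
    exact N.mul_mem ha hb
  inv_mem' := fun {a} ha => by
    rw [Set.mem_ofPred_eq, Units.val_inv_eq_inv_val]
    exact N.inv_mem ha

variable {N}

theorem mem_NU {u : Mˣ} : u ∈ NU N ↔ (u : M) ∈ N := Iff.rfl

/-- the class of a unit is trivial if and only if it is in `N` -/
theorem cl_eq_one {u : Mˣ} : (u : Mˣ ⧸ NU N) = 1 ↔ (u : M) ∈ N := by
  rw [QuotientGroup.eq_one_iff, mem_NU]

/-- a property of classes satisfied by finitely many classes -/
theorem FinCls.finite {P : M → Prop} (h : FinCls N P) (T : Set (Mˣ ⧸ NU N))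
    (hT : ∀ u : Mˣ, (u : Mˣ ⧸ NU N) ∈ T → P u) : T.Finite := by
  by_contra hinf
  obtain ⟨C, hC⟩ := h
  obtain ⟨t, ht, htc⟩ := (show T.Infinite from hinf).exists_subset_card_eq (C + 1)
  classical
  have hout : ∀ q : Mˣ ⧸ NU N, ((Quotient.out q : Mˣ) : Mˣ ⧸ NU N) = q := fun q =>
    QuotientGroup.out_eq' q
  let r : (Mˣ ⧸ NU N) → M := fun q => ((Quotient.out q : Mˣ) : M)
  have hr : Function.Injective r := by
    intro q q' hq
    have h1 : (Quotient.out q : Mˣ) = Quotient.out q' := Units.ext hq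
    rw [← hout q, h1, hout]
  obtain ⟨a, ha, b, hb, hab, hN⟩ := hC (t.image r) (by
    intro a ha
    obtain ⟨q, hq, rfl⟩ := Finset.mem_image.mp ha
    refine ⟨Units.ne_zero _, hT _ ?_⟩
    rw [hout]
    exact ht hq) (by rw [Finset.card_image_of_injective _ hr, htc]; exact Nat.lt_succ_self C)
  obtain ⟨q, hq, rfl⟩ := Finset.mem_image.mp ha
  obtain ⟨q', hq', rfl⟩ := Finset.mem_image.mp hb
  apply hab
  have h1 : (((Quotient.out q : Mˣ) / (Quotient.out q' : Mˣ) : Mˣ) : Mˣ ⧸ NU N) = 1 := by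
    rw [cl_eq_one, Units.val_div_eq_div_val]
    exact hN
  rw [QuotientGroup.mk_div, hout, hout, div_eq_one] at h1
  rw [h1]

end field

theorem surj : S_SURJ := by
  intro ℓ _ M _ N φ hφ hdiv h1 h2 h n h0 hn
  have hle : NU N ≤ (NU N).comap (Units.map (φ : M →* M)) := by
    intro u hu
    rw [Subgroup.mem_comap, mem_NU]
    exact (hφ _).mpr hu
  let Φ : Mˣ ⧸ NU N →* Mˣ ⧸ NU N := QuotientGroup.map _ _ (Units.map (φ : M →* M)) hle
  have hΦ : ∀ u : Mˣ, Φ (u : Mˣ ⧸ NU N) = ((Units.map (φ : M →* M) u : Mˣ) : Mˣ ⧸ NU N) :=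
    fun u => rfl
  have hpow : ∀ (u : Mˣ) (m : ℕ), (u : Mˣ ⧸ NU N) ^ m = 1 ↔ (u : M) ^ m ∈ N := by
    intro u m
    rw [← QuotientGroup.mk_pow, cl_eq_one, Units.val_pow_eq_pow_val]
  have hker : ∀ u : Mˣ, Φ (u : Mˣ ⧸ NU N) = u ↔ φ u / u ∈ N := by
    intro u
    rw [hΦ, ← div_eq_one, ← QuotientGroup.mk_div, cl_eq_one, Units.val_div_eq_div_val]
    rfl
  have hd : ∀ (a : Mˣ ⧸ NU N) (k : ℕ), a ^ (ℓ ^ k) = 1 → ∃ b : Mˣ ⧸ NU N, b ^ ℓ = a := by
    intro a k hk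
    obtain ⟨u, rfl⟩ := QuotientGroup.mk_surjective a
    obtain ⟨z, hz, g, hz0, hg⟩ := hdiv u k u.ne_zero ((hpow _ _).mp hk)
    have hg0 : g ≠ 0 := by
      rintro rfl
      rw [zero_pow (Fact.out : ℓ.Prime).ne_zero, mul_zero] at hg
      exact u.ne_zero hg
    refine ⟨(Units.mk0 g hg0 : Mˣ), ?_⟩
    rw [← QuotientGroup.mk_pow]
    rw [← div_eq_one, ← QuotientGroup.mk_div, cl_eq_one, Units.val_div_eq_div_val,
      Units.val_pow_eq_pow_val, Units.val_mk0, hg]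
    have h3 : g ^ ℓ / (z * g ^ ℓ) = z⁻¹ := by
      field_simp
    rw [h3]
    exact N.inv_mem hz
  have ht : {a : Mˣ ⧸ NU N | a ^ ℓ = 1}.Finite := FinCls.finite h1 _ fun u hu => by
    rw [Set.mem_ofPred_eq] at hu
    exact (hpow _ _).mp hu
  have hk : {a : Mˣ ⧸ NU N | (∃ n : ℕ, a ^ (ℓ ^ n) = 1) ∧ Φ a = a}.Finite := by
    refine FinCls.finite h2 _ fun u hu => ?_
    obtain ⟨⟨k, hk⟩, hu2⟩ := hu
    exact ⟨⟨k, (hpow _ _).mp hk⟩, (hker u).mp hu2⟩
  obtain ⟨b, m, hb, hab⟩ := surj_group Φ hd ht hk ((Units.mk0 h h0 : Mˣ) : Mˣ ⧸ NU N) n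
    ((hpow _ _).mpr hn)
  obtain ⟨g, rfl⟩ := QuotientGroup.mk_surjective b
  refine ⟨g, m, h / (φ g / g), g.ne_zero, (hpow _ _).mp hb, ?_, ?_⟩
  · rw [hΦ, ← QuotientGroup.mk_div, ← div_eq_one, ← QuotientGroup.mk_div, cl_eq_one,
      Units.val_div_eq_div_val, Units.val_div_eq_div_val] at hab
    exact hab
  · have h3 : φ (g : M) / g ≠ 0 := div_ne_zero (by simp) g.ne_zero
    rw [mul_div_cancel₀ _ h3]

end Pool.Agent.Y705.PS
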